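import Pool.Agent.P.MP_0ff3a5_nt.All.Null
import Pool.Agent.P.MP_0ff3a5_nt.All.Third
import Pool.Agent.P.MP_0ff3a5_nt.Zn.Psi

namespace Pool.Agent.Results.MP_0ff3a5_nt.AllT
open MeasureTheory Pool.Agent.P.MP_0ff3a5_nt

/-- For Lebesgue-almost every `α` with `1 < α < (1 + √5) / 2` and for every `t > 0`, every large
integer is a sum of distinct values `⌊t α^n⌋`. -/
theorem result : ∀ᵐ α : ℝ, 1 < α → α < (1 + √5) / 2 → ∀ t : ℝ, 0 < t →
    ∃ N : ℤ, ∀ m ≥ N, ∃ F : Finset ℤ,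
      (∀ x ∈ F, ∃ n : ℕ, x = ⌊t * α ^ n⌋) ∧ ∑ x ∈ F, x = m := by
  filter_upwards [All.ae_local_global, All.ae_third, Zn.ae_not_sv] with α h h3 h4 a1 a2 t ht
  have s5 : √5 * √5 = 5 := Real.mul_self_sqrt (by norm_num)
  have s0 : 0 ≤ √5 := Real.sqrt_nonneg _
  refine h a1 (by nlinarith) t ht (All.locSol_of_odd a1 ht (h3 a1 (by nlinarith)) ?_)
  by_contra ho
  refine h4 a1 (by nlinarith) (t / 2) (half_pos ht) fun n => ?_
  obtain ⟨k, hk⟩ := Int.not_odd_iff_even.1 fun h => ho ⟨n, h⟩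
  have h1 := Int.floor_le (t * α ^ n)
  have h2 := Int.lt_floor_add_one (t * α ^ n)
  rw [hk] at h1 h2
  push_cast at h1 h2
  have h5 : ⌊t / 2 * α ^ n⌋ = k := Int.floor_eq_iff.2 ⟨by linarith, by linarith⟩
  rw [Int.fract, h5]
  linarith

end Pool.Agent.Results.MP_0ff3a5_nt.AllT
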