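import Pool.Agent.P.MP_0ff3a5_nt.NoOv

namespace Pool.Agent.Results.MP_0ff3a5_nt.NoOverlap
open MeasureTheory Pool.Agent.P.MP_0ff3a5_nt

/-- If `1 < α ≤ 1.56` is not a root of a nonzero polynomial with coefficients in `{-1,0,1}`, then
for almost every `t > 0` every large integer is a sum of distinct values `⌊t α^n⌋`. -/
theorem result (α : ℝ) (h1 : 1 < α) (h2 : α ≤ 39 / 25)
    (h : ∀ p : Polynomial ℤ, p ≠ 0 → (∀ i, |p.coeff i| ≤ 1) → Polynomial.aeval α p ≠ 0) :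
    ∀ᵐ t : ℝ, 0 < t → ∃ N : ℤ, ∀ m ≥ N, ∃ F : Finset ℤ,
      (∀ x ∈ F, ∃ n : ℕ, x = ⌊t * α ^ n⌋) ∧ ∑ x ∈ F, x = m := by
  obtain ⟨g, g0, g1, g2⟩ := gap_small h1 h2
  obtain ⟨a, b, μ, T, P, hT⟩ := par_of_gap h1 g0 g1 g2
  exact partA' P hT (no_overlap h)

end Pool.Agent.Results.MP_0ff3a5_nt.NoOverlap
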