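import Pool.Agent.P.MP_0ff3a5_nt.R2.Fin

namespace Pool.Agent.Results.MP_0ff3a5_nt.RootTwo
open Pool.Agent.P.MP_0ff3a5_nt.R2

/-- Local-global principle in the strip `1 < α < √2`. There is a countable set `E` of pairs
`(t, α)`, in which every algebraic `α` is a Pisot number, such that for each `α` in the strip there
is `D` with: for all `t > 0` with `(t, α) ∉ E`, every large integer is a sum of distinct values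
`⌊t α^n⌋` if and only if such sums meet every residue class modulo every `d ≤ D`. -/
theorem result : ∃ E : Set (ℝ × ℝ), E.Countable ∧
    (∀ p ∈ E, IsAlgebraic ℚ p.2 → IsIntegral ℤ p.2 ∧
      ∀ γ : ℂ, Polynomial.aeval γ (minpoly ℚ p.2) = 0 → γ ≠ (p.2 : ℂ) → ‖γ‖ < 1) ∧
    ∀ α : ℝ, 1 < α → α ^ 2 < 2 → ∃ D : ℕ, ∀ t : ℝ, 0 < t → (t, α) ∉ E →
      ((∃ N : ℤ, ∀ m ≥ N, ∃ F : Finset ℤ,
          (∀ x ∈ F, ∃ n : ℕ, x = ⌊t * α ^ n⌋) ∧ ∑ x ∈ F, x = m) ↔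
        ∀ d : ℕ, 1 ≤ d → d ≤ D → ∀ r : ℤ, ∃ F : Finset ℤ,
          (∀ x ∈ F, ∃ n : ℕ, x = ⌊t * α ^ n⌋) ∧ (d : ℤ) ∣ ∑ x ∈ F, x - r) := by
  refine ⟨{p | (1 < p.2 ∧ ∃ N : ℕ, Geo (p.1 * p.2 ^ N) (p.2 ^ 2) ∧
      Sep (fl (p.1 * p.2 ^ N) (p.2 ^ 2)) 40) ∧ (IsAlgebraic ℚ p.2 → IsIntegral ℤ p.2 ∧
      ∀ γ : ℂ, Polynomial.aeval γ (minpoly ℚ p.2) = 0 → γ ≠ (p.2 : ℂ) → ‖γ‖ < 1)},
    count'.mono fun p hp => hp.1, fun p hp => hp.2, fun α h1 h2 => ?_⟩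
  have key : ∃ D : ℕ, ∀ t > 0, ¬ ((1 < α ∧ ∃ N : ℕ, Geo (t * α ^ N) (α ^ 2) ∧
      Sep (fl (t * α ^ N) (α ^ 2)) 40) ∧ (IsAlgebraic ℚ α → IsIntegral ℤ α ∧
      ∀ γ : ℂ, Polynomial.aeval γ (minpoly ℚ α) = 0 → γ ≠ (α : ℂ) → ‖γ‖ < 1)) →
      ∃ i < 2, ∀ M, Geo (t * α ^ (2 * M + i)) (α ^ 2) →
        ¬ Sep (fl (t * α ^ (2 * M + i)) (α ^ 2)) D := by
    by_cases hp : IsAlgebraic ℚ α → IsIntegral ℤ α ∧
      ∀ γ : ℂ, Polynomial.aeval γ (minpoly ℚ α) = 0 → γ ≠ (α : ℂ) → ‖γ‖ < 1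
    · exact ⟨40, fun t _ hE => ⟨0, by omega, fun M g s => hE ⟨⟨h1, _, g, s⟩, hp⟩⟩⟩
    · obtain ⟨D, H⟩ := exists_parity h1 h2 (by_contra fun h => hp fun a => absurd a h)
        fun h => hp fun _ => h
      exact ⟨D, fun t ht _ => H t ht⟩
  obtain ⟨D, H⟩ := key
  refine ⟨D, fun t ht hE => ⟨fun ⟨N, hN⟩ d hd _ r => ?_, fun loc => ?_⟩⟩
  · have a : |N - r| ≤ d * |N - r| := le_mul_of_one_le_left (abs_nonneg _) (by omega)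
    obtain ⟨F, f, e⟩ := hN (r + d * |N - r|) (by have := le_abs_self (N - r); omega)
    exact ⟨F, f, _, by rw [e, add_sub_cancel_left]⟩
  · obtain ⟨i, hi, h⟩ := H t ht hE
    obtain ⟨d, d1, d2, hd⟩ := exists_d h1 h2 ht hi h
    refine complete h1 h2 ht hi d1 hd fun r => ?_
    obtain ⟨F, f, e⟩ := loc d d1 d2 r
    exact ⟨F, f, (Int.modEq_iff_dvd.2 e).symm⟩

end Pool.Agent.Results.MP_0ff3a5_nt.RootTwo
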