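import Pool.Agent.P.MP_0ff3a5_nt.TH.Pat
import Pool.Agent.P.MP_0ff3a5_nt.TH.Gain
import Pool.Agent.P.MP_0ff3a5_nt.TH.PsiA
import Pool.Agent.P.MP_0ff3a5_nt.TH.PsiC
import Pool.Agent.P.MP_0ff3a5_nt.TH.Sumset
import Pool.Agent.P.MP_0ff3a5_nt.TH.Ideal
import Pool.Agent.P.MP_0ff3a5_nt.TH.Stage
import Pool.Agent.P.MP_0ff3a5_nt.TH.Core
import Pool.Agent.P.MP_0ff3a5_nt.TH.Final
import Pool.Agent.P.MP_0ff3a5_nt.TH.Pol

namespace Pool.Agent.Results.MP_0ff3a5_nt.ThreeHalves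
open Pool.Agent.P.MP_0ff3a5_nt.TH

/-- Let `α > 0` have a power equal to `3/2` (for example `α = 3/2`). For every `t > 0`: every large
integer is a sum of distinct values `⌊t α^n⌋` if and only if some value `⌊t α^n⌋` is odd. -/
theorem result (α : ℝ) (r : ℕ) (hα : 0 < α) (hr : α ^ r = 3 / 2) (t : ℝ) (ht : 0 < t) :
    (∃ N : ℤ, ∀ m ≥ N, ∃ F : Finset ℤ,
      (∀ x ∈ F, ∃ n : ℕ, x = ⌊t * α ^ n⌋) ∧ ∑ x ∈ F, x = m) ↔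
    ∃ n : ℕ, Odd ⌊t * α ^ n⌋ :=
  p_Final (p_Core p_Pattern p_Gain p_Ideal (p_Stage (p_Sumset p_PsiA p_PsiC) p_Ideal) p_Pol)
    α r hα hr t ht

end Pool.Agent.Results.MP_0ff3a5_nt.ThreeHalves
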